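import Mathlib
import Pool.Agent.Lib.MP_c95b3b_ag_AL.MO

set_option autoImplicit false

namespace Pool.Agent.Results.MP_c95b3b_ag.AllLines

/-- Let `k` be any natural number, `a i, b i` (`i < k`) nonzero algebraic numbers and `Y` the
subvariety `a i * x i + b i * y i = 1` (`i < k`) of `G_m^(2k)`, a product of `k` lines,
`dim Y = k`. The points of `Y` lying in algebraic subgroups of dimension at most `k - 1`
(codimension at least `dim Y + 1`), i.e. those whose `2 k` coordinates satisfy multiplicative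
relations of rank at least `k + 1`, are not Zariski dense in `Y`: some nonzero integer polynomial
in the `k` coordinates `a i * x i` of `Y` vanishes at all of them. -/
theorem result (k : ℕ) (a b : Fin k → ℂ) (ha : ∀ i, a i ≠ 0) (hb : ∀ i, b i ≠ 0)
    (ha' : ∀ i, IsAlgebraic ℚ (a i)) (hb' : ∀ i, IsAlgebraic ℚ (b i)) :
    ∃ F : MvPolynomial (Fin k) ℤ, F ≠ 0 ∧
      ∀ x y : Fin k → ℂ, (∀ i, x i ≠ 0 ∧ y i ≠ 0 ∧ a i * x i + b i * y i = 1) →
        (∃ Λ : Submodule ℤ (Fin k → ℤ × ℤ), k + 1 ≤ Module.finrank ℤ Λ ∧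
          ∀ m ∈ Λ, ∏ i, x i ^ (m i).1 * y i ^ (m i).2 = 1) →
        MvPolynomial.aeval (fun i => a i * x i) F = 0 := by
  obtain ⟨F, hF, h⟩ := Pool.Agent.AL.all_lines k a b ha hb ha' hb'
  exact ⟨F, hF, fun x y hxy hΛ => h x y ⟨hxy, hΛ⟩⟩

end Pool.Agent.Results.MP_c95b3b_ag.AllLines
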