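import Pool.Agent.Lib.MP_c95b3b_ag_KP.TwoLevel

/-! MP_c95b3b_ag: Zilber's conjecture for products of `k` lines, restricted to the points whose
coordinates have bounded or comparable heights. -/

namespace Pool.Agent.Results.MP_c95b3b_ag.ComparableHeights

/-- The point with the coordinates `x i`, `y i` (`i < k`) of the torus of dimension `2 * k` lies on
the product of the `k` lines `a i * X i + b i * Y i = 1` and in an algebraic subgroup of dimension
at most `k - 1`: its coordinates satisfy the multiplicative relations of a lattice of exponents of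
rank at least `k + 1`. -/
def Unlikely {K : Type} [Field K] {k : ℕ} (a b x y : Fin k → K) : Prop :=
  (∀ i, x i ≠ 0 ∧ y i ≠ 0 ∧ a i * x i + b i * y i = 1) ∧
    ∃ Λ : Submodule ℤ (Fin k → ℤ × ℤ), k + 1 ≤ Module.finrank ℤ Λ ∧
      ∀ m ∈ Λ, ∏ i, x i ^ (m i).1 * y i ^ (m i).2 = 1

/-- The absolute logarithmic height of an element of a number field. -/
noncomputable def absHeight {K : Type} [Field K] [NumberField K] (x : K) : ℝ :=
  Height.logHeight₁ x / Module.finrank ℚ K

/-- Let `a i`, `b i` (`i < k`) be non-zero elements of a number field `K0` and let `B` be a real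
number. The points of the product of the lines `a i * X i + b i * Y i = 1` over number fields `K`
which lie in an algebraic subgroup of dimension at most `k - 1`, and for which every coordinate
`x i` has absolute height at most `B` or between `H` and `B * H`, for some `H > 0` depending on the
point, are not Zariski dense: some non-zero polynomial vanishes at all of them. -/
theorem result (k : ℕ) (K0 : Type) [Field K0] [NumberField K0] (a b : Fin k → K0)
    (ha : ∀ i, a i ≠ 0) (hb : ∀ i, b i ≠ 0) (B : ℝ) :
    ∃ F : MvPolynomial (Fin k) K0, F ≠ 0 ∧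
      ∀ (K : Type) [Field K] [NumberField K] [Algebra K0 K] (x y : Fin k → K),
        Unlikely (fun i => algebraMap K0 K (a i)) (fun i => algebraMap K0 K (b i)) x y →
        (∃ H : ℝ, 0 < H ∧ ∀ i, absHeight (x i) ≤ B ∨
          (H ≤ absHeight (x i) ∧ absHeight (x i) ≤ B * H)) →
        MvPolynomial.aeval x F = 0 := by
  obtain ⟨F, hF, h⟩ := Pool.Agent.KP.two_level_nf k K0 a b ha hb B
  have hinj : Function.Injective (algebraMap ℤ K0) := (algebraMap ℤ K0).injective_int
  refine ⟨MvPolynomial.aeval (fun i => MvPolynomial.C (a i) * MvPolynomial.X i)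
    (MvPolynomial.map (algebraMap ℤ K0) F), ?_, ?_⟩
  · intro h0
    have h1 : (MvPolynomial.aeval (fun i => MvPolynomial.C (a i)⁻¹ * MvPolynomial.X i))
        ((MvPolynomial.aeval (fun i => MvPolynomial.C (a i) * MvPolynomial.X i))
          (MvPolynomial.map (algebraMap ℤ K0) F)) =
        (MvPolynomial.map (algebraMap ℤ K0) F : MvPolynomial (Fin k) K0) := by
      rw [← AlgHom.comp_apply]
      have h2 : (MvPolynomial.aeval (fun i => (MvPolynomial.C (a i)⁻¹ * MvPolynomial.X i :
          MvPolynomial (Fin k) K0))).comp
          (MvPolynomial.aeval (fun i => MvPolynomial.C (a i) * MvPolynomial.X i)) =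
          AlgHom.id K0 (MvPolynomial (Fin k) K0) := by
        apply MvPolynomial.algHom_ext
        intro i
        simp only [AlgHom.comp_apply, MvPolynomial.aeval_X, map_mul, AlgHom.id_apply]
        rw [← MvPolynomial.algebraMap_eq, AlgHom.commutes, MvPolynomial.algebraMap_eq,
          ← mul_assoc, ← map_mul, mul_inv_cancel₀ (ha i), map_one, one_mul]
      rw [h2, AlgHom.id_apply]
    rw [h0, map_zero] at h1
    exact hF (MvPolynomial.map_injective _ hinj (by rw [← h1, map_zero]))
  · intro K _ _ _ x y hsp hht
    obtain ⟨H, hH, hht⟩ := hht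
    have hn : (0 : ℝ) < Module.finrank ℚ K := by exact_mod_cast Module.finrank_pos
    have h1 := h K x y hsp ⟨H, hH, fun i => by
      rcases hht i with h | ⟨h1, h2⟩
      · left
        rwa [absHeight, div_le_iff₀ hn] at h
      · right
        rw [absHeight, le_div_iff₀ hn] at h1
        rw [absHeight, div_le_iff₀ hn] at h2
        exact ⟨h1, h2⟩⟩
    have h2 : (MvPolynomial.aeval x).comp (MvPolynomial.aeval (fun i =>
        (MvPolynomial.C (a i) * MvPolynomial.X i : MvPolynomial (Fin k) K0))) =
        MvPolynomial.aeval (R := K0) (fun i => algebraMap K0 K (a i) * x i) := by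
      apply MvPolynomial.algHom_ext
      intro i
      simp only [AlgHom.comp_apply, MvPolynomial.aeval_X, map_mul]
      rw [← MvPolynomial.algebraMap_eq, AlgHom.commutes]
    rw [← AlgHom.comp_apply, h2, MvPolynomial.aeval_map_algebraMap]
    exact h1

end Pool.Agent.Results.MP_c95b3b_ag.ComparableHeights
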