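import Mathlib
import Pool.Agent.Lib.MP_c95b3b_ag_L3.FD

set_option autoImplicit false

namespace Pool.Agent.Results.MP_c95b3b_ag.ThreeLines

/-- Let `a i, b i` be nonzero algebraic numbers and let `Y` be the three dimensional subvariety
`a i * x i + b i * y i = 1` (`i = 0, 1, 2`) of `G_m^6`, a product of three lines. The points of
`Y` lying in algebraic subgroups of dimension at most `2` (codimension at least `dim Y + 1 = 4`),
i.e. those whose coordinates satisfy multiplicative relations of rank at least `4`, are not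
Zariski dense in `Y`: some nonzero integer polynomial in the three coordinates `a i * x i` of `Y`
vanishes at all of them. -/
theorem result (a b : Fin 3 → ℂ) (ha : ∀ i, a i ≠ 0) (hb : ∀ i, b i ≠ 0)
    (ha' : ∀ i, IsAlgebraic ℚ (a i)) (hb' : ∀ i, IsAlgebraic ℚ (b i)) :
    ∃ F : MvPolynomial (Fin 3) ℤ, F ≠ 0 ∧
      ∀ x y : Fin 3 → ℂ, (∀ i, x i ≠ 0 ∧ y i ≠ 0 ∧ a i * x i + b i * y i = 1) →
        (∃ Λ : Submodule ℤ (Fin 3 → ℤ × ℤ), 4 ≤ Module.finrank ℤ Λ ∧
          ∀ m ∈ Λ, ∏ i, x i ^ (m i).1 * y i ^ (m i).2 = 1) →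
        MvPolynomial.aeval (fun i => a i * x i) F = 0 := by
  obtain ⟨F, hF, h⟩ := Pool.Agent.L3.three_lines a b ha hb ha' hb'
  exact ⟨F, hF, fun x y hxy hΛ => h x y ⟨hxy, hΛ⟩⟩

end Pool.Agent.Results.MP_c95b3b_ag.ThreeLines
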